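import Mathlib

set_option autoImplicit false

open MeasureTheory Filter Topology Set

namespace Pool.Agent.Results.MP_868b62_an.InjectiveExpansion

/-- The approximate lower limit of `g h` as `h → 0⁺`, as an extended real number: the supremum
of the real `t` for which `|{h ∈ (0, r) : g h < t}| / r → 0` as `r → 0⁺`
(it is `⊥ = -∞` when there is no such `t`). -/
noncomputable def apLiminf (g : ℝ → ℝ) : EReal :=
  sSup ((fun t : ℝ => (t : EReal)) ''
    {t : ℝ | Tendsto (fun r : ℝ => volume {h : ℝ | h ∈ Ioo 0 r ∧ g h < t} / ENNReal.ofReal r)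
      (𝓝[>] 0) (𝓝 0)})

/-- binary digits of `x`: `bit 0 x` is the parity of the integer part, and `bit n x` is
the `n`-th binary digit after the point. -/
noncomputable def bit (n : ℕ) (x : ℝ) : ℤ := ⌊x * 2 ^ n⌋ % 2

lemma bit_mem (n : ℕ) (x : ℝ) : bit n x = 0 ∨ bit n x = 1 := by
  unfold bit; omega

/-- the base-eight digits of the constructed map: they lie in `{0, 1, 2, 3}`. -/
noncomputable def dig (i : ℕ) (x : ℝ) : ℤ := 2 * bit i x + bit (6 * i) x

lemma dig_bounds (i : ℕ) (x : ℝ) : 0 ≤ dig i x ∧ dig i x ≤ 3 := by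
  unfold dig
  rcases bit_mem i x with h | h <;> rcases bit_mem (6 * i) x with h' | h' <;> rw [h, h'] <;> omega

lemma dig_eq {i : ℕ} {x y : ℝ} (h : dig i x = dig i y) :
    bit i x = bit i y ∧ bit (6 * i) x = bit (6 * i) y := by
  unfold dig at h
  have h1 := bit_mem i x
  have h2 := bit_mem (6 * i) x
  have h3 := bit_mem i y
  have h4 := bit_mem (6 * i) y
  omega

/-- tails of the digit expansion -/
noncomputable def R (q : ℕ) (x : ℝ) : ℝ := ∑' i : ℕ, (dig (i + q) x : ℝ) / 8 ^ (i + 1)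

/-- the digit-interleaving map -/
noncomputable def T (x : ℝ) : ℝ := R 0 x

lemma geo_summable : Summable (fun i : ℕ => (3 : ℝ) / 8 ^ (i + 1)) := by
  have h : Summable (fun i : ℕ => ((1 : ℝ) / 8) ^ i) :=
    summable_geometric_of_lt_one (by norm_num) (by norm_num)
  have h2 := h.mul_left (3 / 8)
  refine h2.congr (fun i => ?_)
  rw [one_div, inv_pow, pow_succ]
  field_simp

lemma geo_tsum : ∑' i : ℕ, (3 : ℝ) / 8 ^ (i + 1) = 3 / 7 := by
  have h := tsum_geometric_of_lt_one (r := (1 : ℝ) / 8) (by norm_num) (by norm_num)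
  have h2 : ∑' i : ℕ, (3 : ℝ) / 8 ^ (i + 1) = ∑' i : ℕ, (3 / 8 : ℝ) * ((1 : ℝ) / 8) ^ i := by
    congr 1; ext i
    rw [one_div, inv_pow, pow_succ]
    field_simp
  rw [h2, tsum_mul_left, h]
  norm_num

lemma term_nonneg (q i : ℕ) (x : ℝ) : (0 : ℝ) ≤ (dig (i + q) x : ℝ) / 8 ^ (i + 1) := by
  have := (dig_bounds (i + q) x).1
  positivity

lemma term_le (q i : ℕ) (x : ℝ) : (dig (i + q) x : ℝ) / 8 ^ (i + 1) ≤ 3 / 8 ^ (i + 1) := by
  have := (dig_bounds (i + q) x).2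
  have h : (dig (i + q) x : ℝ) ≤ 3 := by exact_mod_cast this
  gcongr

lemma R_summable (q : ℕ) (x : ℝ) : Summable (fun i : ℕ => (dig (i + q) x : ℝ) / 8 ^ (i + 1)) :=
  Summable.of_nonneg_of_le (fun i => term_nonneg q i x) (fun i => term_le q i x) geo_summable

lemma R_nonneg (q : ℕ) (x : ℝ) : 0 ≤ R q x := tsum_nonneg (fun i => term_nonneg q i x)

lemma R_le (q : ℕ) (x : ℝ) : R q x ≤ 3 / 7 := by
  rw [← geo_tsum]
  exact (R_summable q x).tsum_le_tsum (fun i => term_le q i x) geo_summable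

lemma R_step (q : ℕ) (x : ℝ) : 8 * R q x = dig q x + R (q + 1) x := by
  unfold R
  rw [(R_summable q x).tsum_eq_zero_add]
  have h : ∀ i : ℕ, (dig (i + 1 + q) x : ℝ) / 8 ^ (i + 1 + 1) =
      (1 / 8) * ((dig (i + (q + 1)) x : ℝ) / 8 ^ (i + 1)) := by
    intro i
    have : i + 1 + q = i + (q + 1) := by ring
    rw [this, pow_succ (8 : ℝ) (i + 1)]
    field_simp
  simp_rw [h]
  rw [tsum_mul_left]
  simp
  ring

/-- integer parts of `8 ^ q * T x` -/
noncomputable def N : ℕ → ℝ → ℤ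
  | 0, _ => 0
  | (q + 1), x => 8 * N q x + dig q x

lemma T_eq (q : ℕ) (x : ℝ) : 8 ^ q * T x = N q x + R q x := by
  induction q with
  | zero => simp [N, T]
  | succ q ih =>
    have := R_step q x
    rw [pow_succ, N]
    push_cast
    linarith

lemma floor_T (q : ℕ) (x : ℝ) : ⌊8 ^ q * T x⌋ = N q x := by
  rw [T_eq, Int.floor_eq_iff]
  have h1 := R_nonneg q x
  have h2 := R_le q x
  constructor <;> linarith

lemma N_eq {q : ℕ} {x y : ℝ} (h : N q x = N q y) : ∀ i < q, dig i x = dig i y := by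
  induction q with
  | zero => intro i hi; omega
  | succ q ih =>
    intro i hi
    simp only [N] at h
    have h1 := dig_bounds q x
    have h2 := dig_bounds q y
    have h3 : N q x = N q y := by omega
    rcases Nat.lt_succ_iff_lt_or_eq.mp hi with h' | h'
    · exact ih h3 i h'
    · subst h'; omega

lemma floor_half (n : ℕ) (x : ℝ) : ⌊x * 2 ^ n⌋ = ⌊x * 2 ^ (n + 1)⌋ / 2 := by
  have h1 := Int.floor_le (x * 2 ^ n)
  have h2 := Int.lt_floor_add_one (x * 2 ^ n)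
  have h3 := Int.floor_le (x * 2 ^ (n + 1))
  have h4 := Int.lt_floor_add_one (x * 2 ^ (n + 1))
  have h5 : x * 2 ^ (n + 1) = 2 * (x * 2 ^ n) := by ring
  rw [h5] at h3 h4 ⊢
  have h6 : 2 * ⌊x * 2 ^ n⌋ < ⌊2 * (x * 2 ^ n)⌋ + 1 := by
    have : (2 : ℝ) * ⌊x * 2 ^ n⌋ < ⌊2 * (x * 2 ^ n)⌋ + 1 := by linarith
    exact_mod_cast this
  have h7 : ⌊2 * (x * 2 ^ n)⌋ < 2 * ⌊x * 2 ^ n⌋ + 2 := by
    have : (⌊2 * (x * 2 ^ n)⌋ : ℝ) < 2 * ⌊x * 2 ^ n⌋ + 2 := by linarith
    exact_mod_cast this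
  omega

lemma floor_mono {n m : ℕ} (hnm : n ≤ m) {x y : ℝ} (h : ⌊x * 2 ^ m⌋ = ⌊y * 2 ^ m⌋) :
    ⌊x * 2 ^ n⌋ = ⌊y * 2 ^ n⌋ := by
  induction m, hnm using Nat.le_induction with
  | base => exact h
  | succ m _ ih =>
    apply ih
    rw [floor_half m x, floor_half m y, h]

/-- `A` is a union of dyadic intervals of length `2 ^ (-n)`. -/
def Det (n : ℕ) (A : Set ℝ) : Prop := ∀ x y : ℝ, ⌊x * 2 ^ n⌋ = ⌊y * 2 ^ n⌋ → (x ∈ A ↔ y ∈ A)

lemma Det.mono {n m : ℕ} (hnm : n ≤ m) {A : Set ℝ} (h : Det n A) : Det m A :=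
  fun x y hxy => h x y (floor_mono hnm hxy)

lemma measurable_floor_mul (n : ℕ) : Measurable (fun x : ℝ => ⌊x * 2 ^ n⌋) :=
  Int.measurable_floor.comp (measurable_id.mul_const _)

lemma measurable_bit (n : ℕ) : Measurable (bit n) := by
  have h : Measurable (fun z : ℤ => z % 2) := measurable_from_top
  exact h.comp (measurable_floor_mul n)

lemma measurable_dig (n : ℕ) : Measurable (dig n) := by
  have h : Measurable (fun z : ℤ × ℤ => 2 * z.1 + z.2) := measurable_of_countable _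
  exact h.comp ((measurable_bit n).prodMk (measurable_bit (6 * n)))

lemma measurable_T : Measurable T := by
  have h : ∀ i : ℕ, Measurable (fun x => (dig (i + 0) x : ℝ) / 8 ^ (i + 1)) := by
    intro i
    have h1 : Measurable (fun z : ℤ => (z : ℝ)) := measurable_from_top
    exact (h1.comp (measurable_dig (i + 0))).div_const _
  refine measurable_of_tendsto_metrizable (f := fun n x =>
    ∑ i ∈ Finset.range n, (dig (i + 0) x : ℝ) / 8 ^ (i + 1)) (g := T) ?_ ?_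
  · intro n
    exact Finset.measurable_sum _ (fun i _ => h i)
  · rw [tendsto_pi_nhds]
    intro x
    exact (R_summable 0 x).hasSum.tendsto_sum_nat

lemma half (n : ℕ) (A : Set ℝ) (hA : MeasurableSet A) (hdet : Det n A) (β : ℤ) :
    2 * volume (A ∩ {x | bit (n + 1) x = β}) ≤ volume A := by
  have hm : ∀ γ : ℤ, MeasurableSet {x | bit (n + 1) x = γ} := fun γ =>
    measurable_bit (n + 1) (measurableSet_singleton γ)
  have key : volume (A ∩ {x | bit (n + 1) x = 0}) = volume (A ∩ {x | bit (n + 1) x = 1}) := by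
    rw [← measure_preimage_add_right volume ((2 : ℝ) ^ (n + 1))⁻¹ (A ∩ {x | bit (n + 1) x = 1})]
    congr 1
    ext x
    have hpos : (0 : ℝ) < 2 ^ (n + 1) := by positivity
    have h1 : (x + (2 ^ (n + 1))⁻¹) * 2 ^ (n + 1) = x * 2 ^ (n + 1) + 1 := by
      field_simp
    have h2 : ⌊(x + (2 ^ (n + 1))⁻¹) * 2 ^ (n + 1)⌋ = ⌊x * 2 ^ (n + 1)⌋ + 1 := by
      rw [h1, Int.floor_add_one]
    have h3 : ⌊x * 2 ^ (n + 1)⌋ % 2 = 0 → ⌊(x + (2 ^ (n + 1))⁻¹) * 2 ^ n⌋ = ⌊x * 2 ^ n⌋ := by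
      intro h
      rw [floor_half n x, floor_half n (x + (2 ^ (n + 1))⁻¹), h2]
      omega
    simp only [mem_inter_iff, mem_ofPred_eq, mem_preimage, bit]
    rw [h2]
    constructor
    · rintro ⟨hx, hb⟩
      exact ⟨(hdet _ _ (h3 hb)).mpr hx, by omega⟩
    · rintro ⟨hx, hb⟩
      have hb' : ⌊x * 2 ^ (n + 1)⌋ % 2 = 0 := by omega
      exact ⟨(hdet _ _ (h3 hb')).mp hx, hb'⟩
  have hsum : volume (A ∩ {x | bit (n + 1) x = 0}) + volume (A ∩ {x | bit (n + 1) x = 1})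
      ≤ volume A := by
    rw [← measure_union]
    · apply measure_mono
      rintro x (hx | hx) <;> exact hx.1
    · rw [Set.disjoint_left]
      rintro x ⟨_, hx⟩ ⟨_, hx'⟩
      simp only [mem_ofPred_eq] at hx hx'
      omega
    · exact hA.inter (hm 1)
  by_cases hβ : β = 0
  · subst hβ
    rw [two_mul]
    nth_rw 2 [key]
    exact hsum
  · by_cases hβ1 : β = 1
    · subst hβ1
      rw [two_mul]
      nth_rw 1 [← key]
      exact hsum
    · have : A ∩ {x | bit (n + 1) x = β} = ∅ := by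
        ext x
        simp only [mem_inter_iff, mem_ofPred_eq, mem_empty_iff_false, iff_false, not_and]
        intro _ h
        rcases bit_mem (n + 1) x with h' | h' <;> omega
      rw [this]
      simp

/-- the cells -/
def cell (k j : ℕ) (a : ℤ) (β : ℕ → ℤ) : Set ℝ :=
  {x | ⌊x * 2 ^ (6 * k)⌋ = a ∧ ∀ i, k < i → i < k + 1 + j → bit (6 * i) x = β i}

lemma cell_succ (k j : ℕ) (a : ℤ) (β : ℕ → ℤ) :
    cell k (j + 1) a β = cell k j a β ∩ {x | bit (6 * (k + 1 + j)) x = β (k + 1 + j)} := by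
  ext x
  simp only [cell, mem_ofPred_eq, mem_inter_iff]
  constructor
  · rintro ⟨h1, h2⟩
    exact ⟨⟨h1, fun i hi hi' => h2 i hi (by omega)⟩, h2 _ (by omega) (by omega)⟩
  · rintro ⟨⟨h1, h2⟩, h3⟩
    refine ⟨h1, fun i hi hi' => ?_⟩
    by_cases h : i = k + 1 + j
    · rw [h]; exact h3
    · exact h2 i hi (by omega)

lemma cell_meas (k j : ℕ) (a : ℤ) (β : ℕ → ℤ) : MeasurableSet (cell k j a β) := by
  have : cell k j a β = {x | ⌊x * 2 ^ (6 * k)⌋ = a} ∩
      ⋂ i : ℕ, ⋂ _ : k < i, ⋂ _ : i < k + 1 + j, {x | bit (6 * i) x = β i} := by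
    ext x
    simp [cell]
  rw [this]
  refine MeasurableSet.inter ?_ ?_
  · exact measurable_floor_mul (6 * k) (measurableSet_singleton a)
  · refine MeasurableSet.iInter fun i => MeasurableSet.iInter fun _ => MeasurableSet.iInter fun _ => ?_
    exact measurable_bit (6 * i) (measurableSet_singleton (β i))

lemma cell_det (k j : ℕ) (a : ℤ) (β : ℕ → ℤ) : Det (6 * (k + j)) (cell k j a β) := by
  intro x y h
  have h1 : ⌊x * 2 ^ (6 * k)⌋ = ⌊y * 2 ^ (6 * k)⌋ := floor_mono (by omega) h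
  have h2 : ∀ i, i < k + 1 + j → bit (6 * i) x = bit (6 * i) y := by
    intro i hi
    unfold bit
    rw [floor_mono (by omega) h]
  simp only [cell, mem_ofPred_eq]
  rw [h1]
  constructor
  · rintro ⟨h3, h4⟩
    exact ⟨h3, fun i hi hi' => by rw [← h2 i hi']; exact h4 i hi hi'⟩
  · rintro ⟨h3, h4⟩
    exact ⟨h3, fun i hi hi' => by rw [h2 i hi']; exact h4 i hi hi'⟩

lemma cell_volume (k j : ℕ) (a : ℤ) (β : ℕ → ℤ) :
    2 ^ (6 * k + j) * volume (cell k j a β) ≤ 1 := by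
  induction j with
  | zero =>
    have h : cell k 0 a β ⊆ Ico ((a : ℝ) / 2 ^ (6 * k)) ((a + 1 : ℝ) / 2 ^ (6 * k)) := by
      rintro x ⟨hx, -⟩
      rw [Int.floor_eq_iff] at hx
      have hpos : (0 : ℝ) < 2 ^ (6 * k) := by positivity
      rw [mem_Ico, div_le_iff₀ hpos, lt_div_iff₀ hpos]
      exact hx
    calc 2 ^ (6 * k + 0) * volume (cell k 0 a β)
        ≤ 2 ^ (6 * k + 0) * volume (Ico ((a : ℝ) / 2 ^ (6 * k)) ((a + 1 : ℝ) / 2 ^ (6 * k))) := by
          gcongr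
      _ = 1 := by
          rw [Real.volume_Ico]
          have h2 : ((a + 1 : ℝ) / 2 ^ (6 * k)) - ((a : ℝ) / 2 ^ (6 * k)) = (2 ^ (6 * k))⁻¹ := by
            field_simp
            ring
          rw [h2, ENNReal.ofReal_inv_of_pos (by positivity)]
          have h3 : ENNReal.ofReal ((2 : ℝ) ^ (6 * k)) = 2 ^ (6 * k) := by
            rw [ENNReal.ofReal_pow (by norm_num)]
            simp
          rw [h3, add_zero]
          exact ENNReal.mul_inv_cancel (by positivity) (by simp)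
  | succ j ih =>
    rw [cell_succ]
    have hd : Det (6 * k + 6 * j + 5) (cell k j a β) := (cell_det k j a β).mono (by omega)
    have h := half (6 * k + 6 * j + 5) (cell k j a β) (cell_meas k j a β) hd (β (k + 1 + j))
    have he : 6 * k + 6 * j + 5 + 1 = 6 * (k + 1 + j) := by ring
    rw [he] at h
    calc 2 ^ (6 * k + (j + 1)) * volume (cell k j a β ∩ {x | bit (6 * (k + 1 + j)) x = β (k + 1 + j)})
        = 2 ^ (6 * k + j) * (2 * volume (cell k j a β ∩
            {x | bit (6 * (k + 1 + j)) x = β (k + 1 + j)})) := by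
          rw [← add_assoc, pow_succ, mul_assoc]
      _ ≤ 2 ^ (6 * k + j) * volume (cell k j a β) := by gcongr
      _ ≤ 1 := ih

/-- The set of `y` in a dyadic interval of length `2 ^ (-6 k)` whose image lies in a given
dyadic interval of the same length has measure at most `2 ^ (-6 k) * 2 ^ (-(k-1))`. -/
lemma box_volume (k : ℕ) (a b : ℤ) :
    2 ^ (6 * (k + 1) + k) * volume {y : ℝ | ⌊y * 2 ^ (6 * (k + 1))⌋ = a ∧
      ⌊8 ^ (2 * (k + 1)) * T y⌋ = b} ≤ 1 := by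
  by_cases hne : ∃ y0 : ℝ, ⌊8 ^ (2 * (k + 1)) * T y0⌋ = b
  · obtain ⟨y0, h2⟩ := hne
    refine le_trans ?_ (cell_volume (k + 1) k a (fun i => bit (6 * i) y0))
    gcongr
    rintro y ⟨h3, h4⟩
    refine ⟨h3, fun i hi hi' => ?_⟩
    rw [floor_T] at h2 h4
    exact (dig_eq (N_eq (h4.trans h2.symm) i (by omega))).2
  · have : {y : ℝ | ⌊y * 2 ^ (6 * (k + 1))⌋ = a ∧ ⌊8 ^ (2 * (k + 1)) * T y⌋ = b} = ∅ := by
      ext y
      simp only [mem_ofPred_eq, mem_empty_iff_false, iff_false, not_and]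
      intro _ h
      exact hne ⟨y, h⟩
    rw [this]
    simp

/-- The main estimate. -/
lemma main_estimate (x : ℝ) (M k : ℕ) :
    2 ^ (6 * (k + 1) + k) * volume {y : ℝ | x < y ∧ (y - x) * 2 ^ (6 * (k + 1)) < 1 ∧
      |T y - T x| * 2 ^ (6 * (k + 1)) < M} ≤ 2 * (2 * M + 1) := by
  set a := ⌊x * 2 ^ (6 * (k + 1))⌋ with ha
  set b := ⌊8 ^ (2 * (k + 1)) * T x⌋ with hb
  have hpow : (8 : ℝ) ^ (2 * (k + 1)) = 2 ^ (6 * (k + 1)) := by
    have h1 : (8 : ℝ) = 2 ^ 3 := by norm_num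
    rw [h1, ← pow_mul]
    congr 1
    ring
  have hsub : {y : ℝ | x < y ∧ (y - x) * 2 ^ (6 * (k + 1)) < 1 ∧
      |T y - T x| * 2 ^ (6 * (k + 1)) < M} ⊆
      ⋃ p ∈ (Finset.Icc a (a + 1) ×ˢ Finset.Icc (b - M) (b + M) : Finset (ℤ × ℤ)),
        {y : ℝ | ⌊y * 2 ^ (6 * (k + 1))⌋ = p.1 ∧ ⌊8 ^ (2 * (k + 1)) * T y⌋ = p.2} := by
    rintro y ⟨h1, h2, h3⟩
    have hpos : (0 : ℝ) < 2 ^ (6 * (k + 1)) := by positivity
    have a1 := Int.floor_le (x * 2 ^ (6 * (k + 1)))
    have a2 := Int.lt_floor_add_one (x * 2 ^ (6 * (k + 1)))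
    have a3 := Int.floor_le (y * 2 ^ (6 * (k + 1)))
    have a4 := Int.lt_floor_add_one (y * 2 ^ (6 * (k + 1)))
    have b1 := Int.floor_le (8 ^ (2 * (k + 1)) * T x)
    have b2 := Int.lt_floor_add_one (8 ^ (2 * (k + 1)) * T x)
    have b3 := Int.floor_le (8 ^ (2 * (k + 1)) * T y)
    have b4 := Int.lt_floor_add_one (8 ^ (2 * (k + 1)) * T y)
    have h3' : |(T y - T x) * 2 ^ (6 * (k + 1))| < M := by
      rw [abs_mul, abs_of_pos hpos]; exact h3
    rw [abs_lt] at h3'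
    have hxy : x * 2 ^ (6 * (k + 1)) < y * 2 ^ (6 * (k + 1)) := by gcongr
    simp only [mem_iUnion, exists_prop, mem_ofPred_eq]
    refine ⟨(⌊y * 2 ^ (6 * (k + 1))⌋, ⌊8 ^ (2 * (k + 1)) * T y⌋), ?_, rfl, rfl⟩
    rw [Finset.mem_product, Finset.mem_Icc, Finset.mem_Icc]
    rw [hpow] at b1 b2 b3 b4
    simp only [hpow]
    refine ⟨⟨?_, ?_⟩, ⟨?_, ?_⟩⟩
    · exact Int.floor_le_floor hxy.le
    · have : (⌊y * 2 ^ (6 * (k + 1))⌋ : ℝ) < a + 1 + 1 := by
        have : (y - x) * 2 ^ (6 * (k + 1)) = y * 2 ^ (6 * (k + 1)) - x * 2 ^ (6 * (k + 1)) := by ring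
        linarith
      have : ⌊y * 2 ^ (6 * (k + 1))⌋ < a + 1 + 1 := by exact_mod_cast this
      omega
    · have : ((b : ℝ) - M) < ⌊2 ^ (6 * (k + 1)) * T y⌋ + 1 := by
        rw [hb, hpow]
        nlinarith
      have : b - M < ⌊2 ^ (6 * (k + 1)) * T y⌋ + 1 := by exact_mod_cast this
      omega
    · have : (⌊2 ^ (6 * (k + 1)) * T y⌋ : ℝ) < b + M + 1 := by
        rw [hb, hpow]
        nlinarith
      have : ⌊2 ^ (6 * (k + 1)) * T y⌋ < b + M + 1 := by exact_mod_cast this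
      omega
  calc 2 ^ (6 * (k + 1) + k) * volume {y : ℝ | x < y ∧ (y - x) * 2 ^ (6 * (k + 1)) < 1 ∧
        |T y - T x| * 2 ^ (6 * (k + 1)) < M}
      ≤ 2 ^ (6 * (k + 1) + k) * volume (⋃ p ∈ (Finset.Icc a (a + 1) ×ˢ
          Finset.Icc (b - M) (b + M) : Finset (ℤ × ℤ)),
        {y : ℝ | ⌊y * 2 ^ (6 * (k + 1))⌋ = p.1 ∧ ⌊8 ^ (2 * (k + 1)) * T y⌋ = p.2}) := by
        gcongr
    _ ≤ 2 ^ (6 * (k + 1) + k) * ∑ p ∈ (Finset.Icc a (a + 1) ×ˢ
          Finset.Icc (b - M) (b + M) : Finset (ℤ × ℤ)),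
        volume {y : ℝ | ⌊y * 2 ^ (6 * (k + 1))⌋ = p.1 ∧ ⌊8 ^ (2 * (k + 1)) * T y⌋ = p.2} := by
        gcongr
        exact measure_biUnion_finset_le _ _
    _ = ∑ p ∈ (Finset.Icc a (a + 1) ×ˢ
          Finset.Icc (b - M) (b + M) : Finset (ℤ × ℤ)), 2 ^ (6 * (k + 1) + k) *
        volume {y : ℝ | ⌊y * 2 ^ (6 * (k + 1))⌋ = p.1 ∧ ⌊8 ^ (2 * (k + 1)) * T y⌋ = p.2} := by
        rw [Finset.mul_sum]
    _ ≤ ∑ p ∈ (Finset.Icc a (a + 1) ×ˢ
          Finset.Icc (b - M) (b + M) : Finset (ℤ × ℤ)), 1 := by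
        exact Finset.sum_le_sum (fun p _ => box_volume k p.1 p.2)
    _ = 2 * (2 * M + 1) := by
        rw [Finset.sum_const, Finset.card_product, Int.card_Icc, Int.card_Icc]
        have h1 : (a + 1 + 1 - a).toNat = 2 := by omega
        have h2 : (b + M + 1 - (b - M)).toNat = 2 * M + 1 := by omega
        rw [h1, h2]
        simp

lemma T_injOn : InjOn T (Ico 0 2) := by
  intro x hx y hy hxy
  have hd : ∀ i, dig i x = dig i y := by
    intro i
    have h : N (i + 1) x = N (i + 1) y := by rw [← floor_T, ← floor_T, hxy]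
    exact N_eq h i (by omega)
  have hb : ∀ i, bit i x = bit i y := fun i => (dig_eq (hd i)).1
  have hf : ∀ n, ⌊x * 2 ^ n⌋ = ⌊y * 2 ^ n⌋ := by
    intro n
    induction n with
    | zero =>
      have h := hb 0
      unfold bit at h
      have h1 : ⌊x * 2 ^ 0⌋ = 0 ∨ ⌊x * 2 ^ 0⌋ = 1 := by
        simp only [pow_zero, mul_one]
        have : 0 ≤ ⌊x⌋ := Int.floor_nonneg.mpr hx.1
        have h' : ⌊x⌋ < 2 := by rw [Int.floor_lt]; exact_mod_cast hx.2
        omega
      have h2 : ⌊y * 2 ^ 0⌋ = 0 ∨ ⌊y * 2 ^ 0⌋ = 1 := by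
        simp only [pow_zero, mul_one]
        have : 0 ≤ ⌊y⌋ := Int.floor_nonneg.mpr hy.1
        have h' : ⌊y⌋ < 2 := by rw [Int.floor_lt]; exact_mod_cast hy.2
        omega
      omega
    | succ n ih =>
      have h := hb (n + 1)
      unfold bit at h
      have h1 := floor_half n x
      have h2 := floor_half n y
      omega
  by_contra hne
  have hpos : 0 < |x - y| := abs_pos.mpr (sub_ne_zero.mpr hne)
  obtain ⟨n, hn⟩ := pow_unbounded_of_one_lt (1 / |x - y|) (one_lt_two)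
  have h1 : |x * 2 ^ n - y * 2 ^ n| < 1 := Int.abs_sub_lt_one_of_floor_eq_floor (hf n)
  rw [← sub_mul, abs_mul, abs_of_pos (by positivity : (0 : ℝ) < 2 ^ n)] at h1
  rw [div_lt_iff₀ hpos] at hn
  linarith

lemma apLiminf_eq_top (x : ℝ) : apLiminf (fun h => |(1 / 4 + T (x + h) - (1 / 4 + T x)) / h|) = ⊤ := by
  unfold apLiminf
  rw [eq_top_iff]
  apply le_of_forall_lt
  intro c hc
  -- it suffices to show that every real number belongs to the set
  have hall : ∀ t : ℝ, Tendsto (fun r : ℝ => volume {h : ℝ | h ∈ Ioo 0 r ∧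
      |(1 / 4 + T (x + h) - (1 / 4 + T x)) / h| < t} / ENNReal.ofReal r) (𝓝[>] 0) (𝓝 0) := by
    intro t
    obtain ⟨M, hM⟩ := exists_nat_gt t
    -- the bound at scale k
    have hbound : ∀ k : ℕ, ∀ r : ℝ, ((1 : ℝ) / 64) ^ (k + 2) < r → r ≤ (1 / 64) ^ (k + 1) →
        volume {h : ℝ | h ∈ Ioo 0 r ∧ |(1 / 4 + T (x + h) - (1 / 4 + T x)) / h| < t} /
          ENNReal.ofReal r ≤ (128 * (2 * M + 1)) * (1 / 2) ^ k := by
      intro k r hr1 hr2
      have hrpos : 0 < r := lt_trans (by positivity) hr1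
      have h64 : ((1 : ℝ) / 64) ^ (k + 1) = 1 / 2 ^ (6 * (k + 1)) := by
        rw [div_pow, one_pow, pow_mul]; norm_num
      have hsub : (fun h : ℝ => x + h) '' {h : ℝ | h ∈ Ioo 0 r ∧
          |(1 / 4 + T (x + h) - (1 / 4 + T x)) / h| < t} ⊆
          {y : ℝ | x < y ∧ (y - x) * 2 ^ (6 * (k + 1)) < 1 ∧
            |T y - T x| * 2 ^ (6 * (k + 1)) < M} := by
        rintro y ⟨h, ⟨⟨h1, h2⟩, h3⟩, rfl⟩
        have hlt : h < 1 / 2 ^ (6 * (k + 1)) := by
          rw [← h64]; exact lt_of_lt_of_le h2 hr2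
        have hpos : (0 : ℝ) < 2 ^ (6 * (k + 1)) := by positivity
        rw [lt_div_iff₀ hpos] at hlt
        refine ⟨by simpa using h1, by simpa using hlt, ?_⟩
        have h4 : (1 / 4 + T (x + h) - (1 / 4 + T x)) = T (x + h) - T x := by ring
        rw [h4, abs_div, abs_of_pos h1, div_lt_iff₀ h1] at h3
        have h5 : |T (x + h) - T x| < M * h := lt_of_lt_of_le h3 (by gcongr)
        have h6 : (0 : ℝ) ≤ M := by positivity
        simp only
        calc |T (x + h) - T x| * 2 ^ (6 * (k + 1)) < M * h * 2 ^ (6 * (k + 1)) := by gcongr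
          _ = M * (h * 2 ^ (6 * (k + 1))) := by ring
          _ ≤ M * 1 := by gcongr
          _ = M := by ring
      have hvol : volume {h : ℝ | h ∈ Ioo 0 r ∧
          |(1 / 4 + T (x + h) - (1 / 4 + T x)) / h| < t} ≤
          volume {y : ℝ | x < y ∧ (y - x) * 2 ^ (6 * (k + 1)) < 1 ∧
            |T y - T x| * 2 ^ (6 * (k + 1)) < M} := by
        calc volume {h : ℝ | h ∈ Ioo 0 r ∧
              |(1 / 4 + T (x + h) - (1 / 4 + T x)) / h| < t}
            = volume ((fun h : ℝ => x + h) '' {h : ℝ | h ∈ Ioo 0 r ∧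
              |(1 / 4 + T (x + h) - (1 / 4 + T x)) / h| < t}) := by
              rw [Set.image_add_left, measure_preimage_add]
          _ ≤ _ := measure_mono hsub
      have hmain := main_estimate x M k
      -- r ≥ 2^(-6(k+2))
      have hr3 : (1 : ENNReal) ≤ ENNReal.ofReal r * 2 ^ (6 * (k + 2)) := by
        have h64' : ((1 : ℝ) / 64) ^ (k + 2) = 1 / 2 ^ (6 * (k + 2)) := by
          rw [div_pow, one_pow, pow_mul]; norm_num
        rw [h64', div_lt_iff₀ (by positivity)] at hr1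
        calc (1 : ENNReal) = ENNReal.ofReal 1 := by simp
          _ ≤ ENNReal.ofReal (r * 2 ^ (6 * (k + 2))) := ENNReal.ofReal_le_ofReal hr1.le
          _ = ENNReal.ofReal r * 2 ^ (6 * (k + 2)) := by
            rw [ENNReal.ofReal_mul hrpos.le, ENNReal.ofReal_pow (by norm_num)]
            simp
      refine ENNReal.div_le_of_le_mul ?_
      refine hvol.trans ?_
      set V := volume {y : ℝ | x < y ∧ (y - x) * 2 ^ (6 * (k + 1)) < 1 ∧
            |T y - T x| * 2 ^ (6 * (k + 1)) < M} with hV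
      have hp : (2 : ENNReal) ^ (6 * (k + 1) + k) ≠ 0 := by positivity
      have hp' : (2 : ENNReal) ^ (6 * (k + 1) + k) ≠ ⊤ := by simp
      rw [← ENNReal.mul_le_mul_iff_right hp hp']
      calc 2 ^ (6 * (k + 1) + k) * V ≤ 2 * (2 * M + 1) := hmain
        _ = 2 * (2 * M + 1) * 1 := by rw [mul_one]
        _ ≤ 2 * (2 * M + 1) * (ENNReal.ofReal r * 2 ^ (6 * (k + 2))) := by gcongr
        _ = 2 ^ (6 * (k + 1) + k) * (128 * (2 * ↑M + 1) * (1 / 2) ^ k * ENNReal.ofReal r) := by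
          have e1 : (2 : ENNReal) ^ (6 * (k + 2)) = 2 ^ (6 * (k + 1)) * 64 := by
            rw [show 6 * (k + 2) = 6 * (k + 1) + 6 by ring, pow_add]; norm_num
          have e2 : (2 : ENNReal) ^ k * (1 / 2) ^ k = 1 := by
            rw [← mul_pow, one_div, ENNReal.mul_inv_cancel (by norm_num) (by norm_num), one_pow]
          rw [e1, pow_add]
          calc 2 * (2 * (M : ENNReal) + 1) * (ENNReal.ofReal r * (2 ^ (6 * (k + 1)) * 64))
              = 2 * (2 * (M : ENNReal) + 1) * (ENNReal.ofReal r * (2 ^ (6 * (k + 1)) * 64)) * 1 := by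
                rw [mul_one]
            _ = 2 * (2 * (M : ENNReal) + 1) * (ENNReal.ofReal r * (2 ^ (6 * (k + 1)) * 64)) *
                  (2 ^ k * (1 / 2) ^ k) := by rw [e2]
            _ = 2 ^ (6 * (k + 1)) * 2 ^ k * (128 * (2 * ↑M + 1) * (1 / 2) ^ k * ENNReal.ofReal r) := by
                ring
    have hlim : Tendsto (fun k : ℕ => ((128 : ENNReal) * (2 * M + 1)) * (1 / 2) ^ k) atTop (𝓝 0) := by
      have h1 : Tendsto (fun k : ℕ => ((1 : ENNReal) / 2) ^ k) atTop (𝓝 0) :=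
        ENNReal.tendsto_pow_atTop_nhds_zero_of_lt_one (by
          rw [one_div]; exact ENNReal.inv_lt_one.mpr (by norm_num))
      have h2 := ENNReal.Tendsto.const_mul (a := (128 : ENNReal) * (2 * M + 1)) h1
        (Or.inr (by finiteness))
      simpa using h2
    rw [ENNReal.tendsto_nhds_zero]
    intro ε hε
    rw [ENNReal.tendsto_nhds_zero] at hlim
    obtain ⟨k0, hk0⟩ := eventually_atTop.mp (hlim ε hε)
    have hev : ∀ᶠ r : ℝ in 𝓝[>] 0, r ∈ Ioo (0 : ℝ) ((1 / 64) ^ (k0 + 2)) :=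
      Ioo_mem_nhdsGT (by positivity)
    filter_upwards [hev] with r hr
    obtain ⟨n, hn1, hn2⟩ := exists_nat_pow_near_of_lt_one (x := r) (y := (1 : ℝ) / 64) hr.1
      (hr.2.le.trans (pow_le_one₀ (by norm_num) (by norm_num))) (by norm_num) (by norm_num)
    -- n ≥ k0 + 1
    have hn : k0 + 1 < n + 1 := by
      by_contra hcon
      push Not at hcon
      have : ((1 : ℝ) / 64) ^ (k0 + 2) ≤ (1 / 64) ^ (n + 1) :=
        pow_le_pow_of_le_one (by norm_num) (by norm_num) (by omega)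
      linarith [hr.2]
    obtain ⟨k, rfl⟩ : ∃ k, n = k + 1 := ⟨n - 1, by omega⟩
    exact (hbound k r hn1 hn2).trans (hk0 k (by omega))
  -- conclude
  obtain ⟨t, ht⟩ : ∃ t : ℝ, c < (t : EReal) := by
    rcases EReal.lt_iff_exists_real_btwn.mp hc with ⟨t, ht, _⟩
    exact ⟨t, ht⟩
  refine lt_of_lt_of_le ht (le_sSup ?_)
  exact ⟨t, hall t, rfl⟩

/-- There is an injective Borel map `φ : (0,2) → (0,1)` whose absolute difference quotients have
approximate limit `+∞` at every point `x` of `(0,2)`. -/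
theorem result :
    ∃ φ : ℝ → ℝ, Measurable φ ∧ InjOn φ (Ioo 0 2) ∧ MapsTo φ (Ioo 0 2) (Ioo 0 1) ∧
      ∀ x ∈ Ioo (0 : ℝ) 2, apLiminf (fun h => |(φ (x + h) - φ x) / h|) = ⊤ := by
  refine ⟨fun x => 1 / 4 + T x, measurable_T.const_add _, ?_, ?_, fun x _ => apLiminf_eq_top x⟩
  · intro x hx y hy hxy
    simp only [add_right_inj] at hxy
    exact T_injOn (Ioo_subset_Ico_self hx) (Ioo_subset_Ico_self hy) hxy
  · intro x _
    have h1 := R_nonneg 0 x
    have h2 := R_le 0 x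
    constructor <;> simp only [T] <;> linarith

end Pool.Agent.Results.MP_868b62_an.InjectiveExpansion
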